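import Pool.Agent.H624.WS.Stm

set_option autoImplicit false

open MeasureTheory Set Filter Topology
open scoped ENNReal

namespace Pool.Agent.H195.WS

open Pool.Agent.H624.WS

/-- the literal of a code -/
def lit {Ω : Type} {𝒞 : Set (Set Ω)} : (𝒞 × Bool) ⊕ ℕ → Set Ω
  | Sum.inl (c, true) => c
  | Sum.inl (c, false) => (c : Set Ω)ᶜ
  | Sum.inr _ => univ

theorem algebra_subset {Ω : Type} (𝒞 : Set (Set Ω)) :
    generateSetAlgebra 𝒞 ⊆ Set.range
      (fun F : Finset (Finset ((𝒞 × Bool) ⊕ ℕ)) => ⋃ a ∈ F, ⋂ t ∈ a, lit t) := by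
  classical
  intro s hs
  obtain ⟨A, hA, hfin, hmem, rfl⟩ := mem_generateSetAlgebra_elim hs
  -- codes of sets
  have hcode : ∀ t : Set Ω, (t ∈ 𝒞 ∨ tᶜ ∈ 𝒞) → ∃ c : (𝒞 × Bool) ⊕ ℕ, lit c = t := by
    rintro t (ht | ht)
    · exact ⟨Sum.inl (⟨t, ht⟩, true), rfl⟩
    · exact ⟨Sum.inl (⟨tᶜ, ht⟩, false), by simp [lit]⟩
  choose! code hcode using hcode
  have hin : ∀ a : Set (Set Ω), a.Finite → (∀ t ∈ a, t ∈ 𝒞 ∨ tᶜ ∈ 𝒞) →
      ∃ b : Finset ((𝒞 × Bool) ⊕ ℕ), ⋂ t ∈ b, lit t = ⋂ t ∈ a, t := by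
    intro a ha h
    refine ⟨ha.toFinset.image code, ?_⟩
    ext x
    simp only [Finset.mem_image, Set.Finite.mem_toFinset, iInter_exists, mem_iInter, and_imp]
    constructor
    · intro hx t ht
      have := hx (code t) t ht rfl
      rwa [hcode t (h t ht)] at this
    · rintro hx _ t ht rfl
      rw [hcode t (h t ht)]
      exact hx t ht
  have hin' : ∀ a ∈ A, ∃ b : Finset ((𝒞 × Bool) ⊕ ℕ), ⋂ t ∈ b, lit t = ⋂ t ∈ a, t :=
    fun a ha => hin a (hfin a ha) (hmem a ha)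
  choose! B hB using hin'
  refine ⟨hA.toFinset.image B, ?_⟩
  ext x
  simp only [Finset.mem_image, Set.Finite.mem_toFinset, mem_iUnion, exists_prop]
  constructor
  · rintro ⟨_, ⟨a, ha, rfl⟩, hx⟩
    refine ⟨a, ha, ?_⟩
    rwa [hB a ha] at hx
  · rintro ⟨a, ha, hx⟩
    refine ⟨_, ⟨a, ha, rfl⟩, ?_⟩
    rwa [hB a ha]

theorem card_algebra {Ω : Type} (κ : Cardinal.{0}) (hκ : Cardinal.aleph0 < κ) (𝒞 : Set (Set Ω))
    (h : Cardinal.mk 𝒞 < κ) : Cardinal.mk (generateSetAlgebra 𝒞) < κ := by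
  refine (Cardinal.mk_le_mk_of_subset (algebra_subset 𝒞)).trans_lt ?_
  refine Cardinal.mk_range_le.trans_lt ?_
  rw [Cardinal.mk_finset_of_infinite, Cardinal.mk_finset_of_infinite, Cardinal.mk_sum,
    Cardinal.lift_id, Cardinal.lift_id, Cardinal.mk_prod, Cardinal.lift_id, Cardinal.lift_id]
  refine Cardinal.add_lt_of_lt hκ.le (Cardinal.mul_lt_of_lt hκ.le h ?_) ?_
  · exact (Cardinal.mk_lt_aleph0 (α := Bool)).trans hκ
  · rw [Cardinal.mk_nat]; exact hκ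

theorem sALG : S_ALG := by
  intro κ hκ Ω m0 μ _ 𝒞 hC hmeas
  have hle : MeasurableSpace.generateFrom 𝒞 ≤ m0 := MeasurableSpace.generateFrom_le hmeas
  have hgen : MeasurableSpace.generateFrom 𝒞 =
      MeasurableSpace.generateFrom (generateSetAlgebra 𝒞) := by simp
  have hA : ∀ s ∈ generateSetAlgebra 𝒞, MeasurableSet[MeasurableSpace.generateFrom 𝒞] s := by
    intro s hs
    rw [hgen]
    exact MeasurableSpace.measurableSet_generateFrom hs
  refine ⟨generateSetAlgebra 𝒞, card_algebra κ hκ 𝒞 hC, fun s hs => hle s (hA s hs), ?_⟩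
  intro s hs ε hε
  have hfin : IsFiniteMeasure (μ.trim hle) := isFiniteMeasure_trim hle
  have hd := @Measure.MeasureDense.of_generateFrom_isSetAlgebra_finite Ω
    (MeasurableSpace.generateFrom 𝒞) (μ.trim hle) (generateSetAlgebra 𝒞) hfin
    isSetAlgebra_generateSetAlgebra hgen
  have hne : (μ.trim hle) s ≠ ∞ := measure_ne_top _ _
  obtain ⟨a, ha, hlt⟩ := @Measure.MeasureDense.approx Ω (MeasurableSpace.generateFrom 𝒞)
    (μ.trim hle) (generateSetAlgebra 𝒞) hd s hs hne ε hε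
  refine ⟨a, ha, ?_⟩
  have hm : MeasurableSet[MeasurableSpace.generateFrom 𝒞] (symmDiff s a) :=
    MeasurableSet.symmDiff hs (hA a ha)
  rw [trim_measurableSet_eq hle hm] at hlt
  exact ENNReal.toReal_lt_of_lt_ofReal hlt

end Pool.Agent.H195.WS
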